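import Mathlib

/-!
# MP_baf67b_al: the Helly dimension of a diagonalizable group is at most `1 + rk X(G)`
-/

set_option autoImplicit false

namespace Pool.Agent.Results.MP_baf67b_al.HellyDimension

open Finset

section algebra

variable {M A ι : Type*} [AddCommGroup M] [AddCommGroup A] [DecidableEq ι]

/-- more than `|S|` elements in the group generated by `S` have a primitive integer relation -/
theorem exists_relation (S : Finset M) (hS : Submodule.span ℤ (S : Set M) = ⊤) (t : Finset ι)
    (ht : S.card < t.card) (z : ι → M) :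
    ∃ r : ι → ℤ, ∑ i ∈ t, r i • z i = 0 ∧ t.gcd r = 1 := by
  classical
  have hlift : ∀ i, ∃ c : S → ℤ, ∑ a, c a • (a : M) = z i := fun i => by
    have : z i ∈ Submodule.span ℤ (Set.range (fun a : S => (a : M))) := by
      rw [Subtype.range_coe_subtype]
      simp only [Finset.setOfPred_mem, hS]
      exact Submodule.mem_top
    exact (Submodule.mem_span_range_iff_exists_fun ℤ).1 this
  choose c hc using hlift
  have hdep : ¬ LinearIndependent ℤ (fun i : t => c i) := by
    intro hli
    have := hli.fintype_card_le_finrank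
    rw [Module.finrank_fintype_fun_eq_card, Fintype.card_coe, Fintype.card_coe] at this
    omega
  obtain ⟨g, hg, i0, hi0⟩ := Fintype.not_linearIndependent_iff.1 hdep
  let g' : ι → ℤ := fun i => if h : i ∈ t then g ⟨i, h⟩ else 0
  have hg' : ∑ i ∈ t, g' i • c i = 0 := by
    rw [← hg, ← Finset.sum_coe_sort t]
    refine Finset.sum_congr rfl fun i _ => ?_
    simp [g']
  obtain ⟨r, hr, hr1⟩ := Finset.extract_gcd g' (s := t) ⟨i0, i0.2⟩
  have hgcd : t.gcd g' ≠ 0 := by
    intro h0
    have := Finset.gcd_eq_zero_iff.1 h0 i0 i0.2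
    simp only [g', dif_pos i0.2] at this
    exact hi0 this
  have hrc : ∑ i ∈ t, r i • c i = 0 := by
    have h1 : t.gcd g' • ∑ i ∈ t, r i • c i = 0 := by
      rw [← hg', Finset.smul_sum]
      refine Finset.sum_congr rfl fun i hi => ?_
      rw [hr i hi, smul_smul]
    exact (smul_eq_zero.1 h1).resolve_left hgcd
  refine ⟨r, ?_, hr1⟩
  have h2 : ∀ a : S, ∑ i ∈ t, r i * c i a = 0 := fun a => by
    have := congrFun hrc a
    simpa using this
  calc ∑ i ∈ t, r i • z i = ∑ i ∈ t, ∑ a, (r i * c i a) • (a : M) := by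
        refine Finset.sum_congr rfl fun i _ => ?_
        rw [← hc i, Finset.smul_sum]
        refine Finset.sum_congr rfl fun a _ => ?_
        rw [smul_smul]
    _ = ∑ a, (∑ i ∈ t, r i * c i a) • (a : M) := by
        rw [Finset.sum_comm]
        refine Finset.sum_congr rfl fun a _ => ?_
        rw [Finset.sum_smul]
    _ = 0 := by simp [h2]

theorem exists_ext [DivisibleBy A ℤ] (S : Finset M) (hS : Submodule.span ℤ (S : Set M) = ⊤)
    (s : Finset ι) (hs : S.card + 2 ≤ s.card) (Nn : ι → Submodule ℤ M) (e : ι → M →ₗ[ℤ] A)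
    (h : ∀ j ∈ s, ∃ f : M →ₗ[ℤ] A, ∀ i ∈ s, i ≠ j → ∀ x ∈ Nn i, f x = e i x) :
    ∃ f : M →ₗ[ℤ] A, ∀ i ∈ s, ∀ x ∈ Nn i, f x = e i x := by
  have miss : ∀ w : ι → M, (∀ i ∈ s, w i ∈ Nn i) → ∀ j ∈ s, w j = 0 → ∑ i ∈ s, w i = 0 →
      ∑ i ∈ s, e i (w i) = 0 := by
    intro w hw j hj hwj hsum
    obtain ⟨f, hf⟩ := h j hj
    have : ∑ i ∈ s, e i (w i) = ∑ i ∈ s, f (w i) := by
      refine Finset.sum_congr rfl fun i hi => ?_
      by_cases hij : i = j
      · subst hij
        rw [hwj, map_zero, map_zero]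
      · rw [hf i hi hij _ (hw i hi)]
    rw [this, ← map_sum, hsum, map_zero]
  have key : ∀ z : ι → M, (∀ i ∈ s, z i ∈ Nn i) → ∑ i ∈ s, z i = 0 →
      ∑ i ∈ s, e i (z i) = 0 := by
    intro z hz hsum
    obtain ⟨k, hk⟩ : s.Nonempty := Finset.card_pos.1 (by omega)
    obtain ⟨r, hr, hr1⟩ := exists_relation S hS (s.erase k)
      (by rw [Finset.card_erase_of_mem hk]; omega) z
    set φ := ∑ i ∈ s, e i (z i) with hφ
    have hrφ : ∀ j ∈ s.erase k, r j • φ = 0 := by
      intro j hj
      have hjs : j ∈ s := Finset.mem_of_mem_erase hj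
      have hjk : j ≠ k := Finset.ne_of_mem_erase hj
      let y : ι → M := fun i => if i = k then 0 else r i • z i
      have hy0 : y k = 0 := by simp [y]
      have hyN : ∀ i ∈ s, y i ∈ Nn i := by
        intro i hi
        simp only [y]
        split_ifs
        · exact zero_mem _
        · exact (Nn i).smul_mem _ (hz i hi)
      have hys : ∑ i ∈ s, y i = 0 := by
        rw [← Finset.add_sum_erase s y hk, hy0, zero_add, ← hr]
        refine Finset.sum_congr rfl fun i hi => ?_
        simp [y, Finset.ne_of_mem_erase hi]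
      have h1 := miss y hyN k hk hy0 hys
      have h2 := miss (fun i => r j • z i - y i)
        (fun i hi => (Nn i).sub_mem ((Nn i).smul_mem _ (hz i hi)) (hyN i hi)) j hjs
        (by simp [y, hjk]) (by rw [Finset.sum_sub_distrib, ← Finset.smul_sum, hsum, hys]; simp)
      simp only [map_sub, map_zsmul, Finset.sum_sub_distrib] at h2
      rw [h1, sub_zero, ← Finset.smul_sum] at h2
      exact h2
    have hdvd : (addOrderOf φ : ℤ) ∣ (s.erase k).gcd r :=
      Finset.dvd_gcd fun j hj => addOrderOf_dvd_iff_zsmul_eq_zero.2 (hrφ j hj)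
    rw [hr1] at hdvd
    have : addOrderOf φ = 1 := by
      have := Int.natAbs_dvd_natAbs.2 hdvd
      simpa using this
    exact AddMonoid.addOrderOf_eq_one_iff.1 this
  let σ : ((i : s) → Nn i) →ₗ[ℤ] M := ∑ i : s, (Nn i).subtype ∘ₗ LinearMap.proj i
  let Φ : ((i : s) → Nn i) →ₗ[ℤ] A := ∑ i : s, (e i ∘ₗ (Nn i).subtype) ∘ₗ LinearMap.proj i
  have hσ : ∀ y, σ y = ∑ i : s, (y i : M) := fun y => by
    simp [σ, LinearMap.sum_apply]
  have hΦ : ∀ y, Φ y = ∑ i : s, e i (y i : M) := fun y => by
    simp [Φ, LinearMap.sum_apply]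
  have hker : LinearMap.ker σ ≤ LinearMap.ker Φ := by
    intro y hy
    rw [LinearMap.mem_ker, hσ] at hy
    rw [LinearMap.mem_ker, hΦ]
    let z : ι → M := fun i => if h : i ∈ s then (y ⟨i, h⟩ : M) else 0
    have := key z (fun i hi => by simp [z, hi]) (by
      rw [← hy, ← Finset.sum_coe_sort s]
      refine Finset.sum_congr rfl fun i _ => ?_
      simp [z])
    rw [← this, ← Finset.sum_coe_sort s]
    refine Finset.sum_congr rfl fun i _ => ?_
    simp [z]
  obtain ⟨f, hf⟩ := (Module.Baer.of_divisible A).extension_property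
    ((LinearMap.ker σ).liftQ σ le_rfl)
    (LinearMap.ker_eq_bot.1 (Submodule.ker_liftQ_eq_bot _ _ _ le_rfl))
    ((LinearMap.ker σ).liftQ Φ hker)
  refine ⟨f, fun i hi x hx => ?_⟩
  have h1 := LinearMap.congr_fun hf
    (Submodule.Quotient.mk (Pi.single (⟨i, hi⟩ : s) (⟨x, hx⟩ : Nn i)))
  rw [LinearMap.comp_apply, Submodule.liftQ_apply, Submodule.liftQ_apply, hσ, hΦ,
    Finset.sum_eq_single (⟨i, hi⟩ : s), Finset.sum_eq_single (⟨i, hi⟩ : s)] at h1
  · simpa using h1
  · intro j _ hj
    simp [Pi.single_eq_of_ne hj]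
  · simp
  · intro j _ hj
    simp [Pi.single_eq_of_ne hj]
  · simp

end algebra

section group

variable {K : Type*} [Field K] {N : ℕ}

/-- The diagonal group `(K^×)^N`. -/
abbrev Diag (K : Type*) [Field K] (N : ℕ) : Type _ := Fin N → Kˣ

/-- its group structure (componentwise multiplication) -/
instance (priority := 2000) diagGroup (K : Type*) [Field K] (N : ℕ) : CommGroup (Diag K N) :=
  Pi.commGroup

/-- The subgroups of the diagonal group. -/
abbrev Sub (K : Type*) [Field K] (N : ℕ) : Type _ := Subgroup (Diag K N)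

/-- The group homomorphisms `G → K^×`. -/
abbrev Hom {K : Type*} [Field K] {N : ℕ} (G : Sub K N) : Type _ := G →* Kˣ

/-- their group structure (pointwise multiplication) -/
instance (priority := 2000) homGroup {K : Type*} [Field K] {N : ℕ} (G : Sub K N) :
    CommGroup (Hom G) := MonoidHom.instCommGroup

/-- A subset of the diagonal group `(K^×)^N` is Zariski closed if it is the set of common zeros in
`(K^×)^N` of a set of polynomials in `N` variables. -/
def ZClosed (S : Set (Diag K N)) : Prop :=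
  ∃ P : Set (MvPolynomial (Fin N) K),
    S = {g | ∀ p ∈ P, MvPolynomial.eval (fun i => (g i : K)) p = 0}

/-- `C` is a Zariski closed coset in `G`: `C = g H` with `g ∈ G` and `H ≤ G` a closed subgroup. -/
def IsClosedCoset (G : Sub K N) (C : Set (Diag K N)) : Prop :=
  ∃ g ∈ G, ∃ H : Sub K N, H ≤ G ∧ ZClosed (H : Set (Diag K N)) ∧
    C = {x | ∃ h ∈ H, x = g * h}

/-- Whenever finitely many Zariski closed cosets in `G` have empty intersection, some subfamily of
at most `d` of them already has empty intersection. -/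
def Helly (G : Sub K N) (d : ℕ) : Prop :=
  ∀ (m : ℕ) (C : Fin m → Set (Diag K N)), (∀ i, IsClosedCoset G (C i)) → (⋂ i, C i) = ∅ →
    ∃ s : Finset (Fin m), s.card ≤ d ∧ (⋂ i ∈ s, C i) = ∅

/-- The Helly dimension. -/
noncomputable def kappa (G : Sub K N) : ℕ :=
  sInf {d | 0 < d ∧ Helly G d}

/-- Regular functions on `G`: restrictions of Laurent polynomials. -/
def Regular (G : Sub K N) (f : G → K) : Prop :=
  ∃ (p : MvPolynomial (Fin N) K) (k : ℕ), ∀ g : G,
    f g * (∏ i, (g.1 i : K)) ^ k = MvPolynomial.eval (fun i => (g.1 i : K)) p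

theorem Regular.mul {G : Sub K N} {f f' : G → K} (h : Regular G f)
    (h' : Regular G f') : Regular G (fun g => f g * f' g) := by
  obtain ⟨p, k, hp⟩ := h
  obtain ⟨p', k', hp'⟩ := h'
  refine ⟨p * p', k + k', fun g => ?_⟩
  rw [map_mul, ← hp, ← hp']
  ring

/-- A character of `G`: a group homomorphism `G → K^×` which is a morphism of varieties, that is,
it and its inverse are regular functions. -/
def IsChar (G : Sub K N) (χ : Hom G) : Prop :=
  Regular G (fun g => (χ g : K)) ∧ Regular G (fun g => ((χ g)⁻¹ : Kˣ))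

theorem IsChar.mul {G : Sub K N} {χ ψ : Hom G} (hχ : IsChar G χ)
    (hψ : IsChar G ψ) : IsChar G (χ * ψ) := by
  refine ⟨?_, ?_⟩
  · have := hχ.1.mul hψ.1
    simpa using this
  · have := hχ.2.mul hψ.2
    simpa [mul_comm] using this

theorem IsChar.one (G : Sub K N) : IsChar G 1 :=
  ⟨⟨1, 0, by simp⟩, ⟨1, 0, by simp⟩⟩

theorem IsChar.inv {G : Sub K N} {χ : Hom G} (hχ : IsChar G χ) :
    IsChar G χ⁻¹ := by
  refine ⟨?_, ?_⟩
  · simpa using hχ.2
  · simpa using hχ.1

/-- The character group `X(G)`, with pointwise multiplication. -/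
def X (G : Sub K N) : Subgroup (Hom G) where
  carrier := {χ | IsChar G χ}
  mul_mem' := IsChar.mul
  one_mem' := IsChar.one G
  inv_mem' := IsChar.inv

/-- The minimal number of generators of a group. -/
noncomputable def rk (X : Type*) [Group X] : ℕ :=
  sInf {n | ∃ S : Finset X, S.card = n ∧ Subgroup.closure (S : Set X) = ⊤}

/-- monomials -/
def mon (m : Fin N → ℤ) : (Fin N → Kˣ) →* Kˣ where
  toFun g := ∏ i, g i ^ m i
  map_one' := by simp
  map_mul' g h := by simp [mul_zpow, Finset.prod_mul_distrib]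

theorem mon_apply (m : Fin N → ℤ) (g : Diag K N) : mon m g = ∏ i, g i ^ m i := rfl

theorem mon_sub (m m' : Fin N → ℤ) (g : Diag K N) : mon (m - m') g = mon m g * (mon m' g)⁻¹ := by
  simp [mon_apply, zpow_sub, Finset.prod_mul_distrib]

theorem mon_add (m m' : Fin N → ℤ) (g : Diag K N) : mon (m + m') g = mon m g * mon m' g := by
  simp [mon_apply, zpow_add, Finset.prod_mul_distrib]

/-- exponent vectors of polynomials -/
def toZ (m : Fin N →₀ ℕ) : Fin N → ℤ := fun i => m i

theorem eval_eq (p : MvPolynomial (Fin N) K) (g : Diag K N) :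
    MvPolynomial.eval (fun i => (g i : K)) p =
      ∑ m ∈ p.support, p.coeff m * (mon (toZ m) g : Kˣ) := by
  rw [MvPolynomial.eval_eq']
  refine Finset.sum_congr rfl fun m _ => ?_
  simp [mon_apply, toZ]

/-- monomials as homomorphisms to `K`, restricted to a subgroup -/
def monK (H : Sub K N) (m : Fin N → ℤ) : H →* K :=
  (Units.coeHom K).comp ((mon m).comp H.subtype)

theorem monK_apply (H : Sub K N) (m : Fin N → ℤ) (h : H) :
    monK H m h = (mon m (h : Diag K N) : Kˣ) := rfl

/-- a closed subgroup is cut out by monomials -/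
theorem mem_of_mon (H : Sub K N) (hH : ZClosed (H : Set (Diag K N)))
    (g : Diag K N) (hg : ∀ m : Fin N → ℤ, (∀ h ∈ H, mon m h = 1) → mon m g = 1) : g ∈ H := by
  classical
  obtain ⟨P, hP⟩ := hH
  have hg' : g ∈ (H : Set (Diag K N)) ↔ g ∈ {g : Fin N → Kˣ | ∀ p ∈ P,
    MvPolynomial.eval (fun i => (g i : K)) p = 0} := by rw [← hP]
  refine hg'.2 fun p hp => ?_
  have hp0 : ∀ h : H, MvPolynomial.eval (fun i => ((h : Diag K N) i : K)) p = 0 := fun h => by
    have h1 : (h : Diag K N) ∈ {g : Fin N → Kˣ | ∀ p ∈ P,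
      MvPolynomial.eval (fun i => (g i : K)) p = 0} := by rw [← hP]; exact h.2
    exact h1 p hp
  let F : (H →* K) →₀ K := ∑ m ∈ p.support, Finsupp.single (monK H (toZ m)) (p.coeff m)
  have hF : F = 0 := by
    refine linearIndependent_iff.1 (linearIndependent_monoidHom H K) F ?_
    simp only [F]
    rw [map_sum]
    funext h
    rw [Finset.sum_apply]
    simp only [Finsupp.linearCombination_single, Pi.smul_apply, smul_eq_mul, monK_apply,
      Pi.zero_apply]
    rw [← eval_eq, hp0]
  have hwd : ∀ m m' : Fin N → ℤ, monK H m = monK H m' → mon m g = mon m' g := by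
    intro m m' hmm
    have := hg (m - m') (fun h hh => by
      have h1 := DFunLike.congr_fun hmm ⟨h, hh⟩
      rw [monK_apply, monK_apply] at h1
      rw [mon_sub, Units.ext h1, mul_inv_cancel])
    rw [mon_sub, mul_inv_eq_one] at this
    exact this
  let w : (H →* K) → K := fun ψ => if hψ : ∃ m, monK H m = ψ then (mon hψ.choose g : Kˣ) else 0
  have hw : ∀ m, w (monK H m) = (mon m g : Kˣ) := by
    intro m
    have hψ : ∃ m', monK H m' = monK H m := ⟨m, rfl⟩
    simp only [w]
    rw [dif_pos hψ, hwd _ _ hψ.choose_spec]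
  have := congrArg (Finsupp.linearCombination K w) hF
  simp only [F] at this
  rw [map_sum, map_zero] at this
  simp only [Finsupp.linearCombination_single, hw, smul_eq_mul] at this
  rw [eval_eq, this]

theorem mon_regular (G : Sub K N) (m : Fin N → ℤ) :
    Regular G (fun g => ((mon m (g : Diag K N) : Kˣ) : K)) := by
  obtain ⟨k, hk⟩ : ∃ k : ℕ, ∀ i, 0 ≤ m i + k := by
    refine ⟨∑ i, (m i).natAbs, fun i => ?_⟩
    have h1 : (m i).natAbs ≤ ∑ i, (m i).natAbs :=
      Finset.single_le_sum (f := fun i => (m i).natAbs) (fun _ _ => Nat.zero_le _) (mem_univ i)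
    omega
  refine ⟨∏ i, MvPolynomial.X i ^ (m i + k).toNat, k, fun g => ?_⟩
  rw [map_prod]
  simp only [map_pow, MvPolynomial.eval_X]
  rw [← Finset.prod_pow]
  have h2 : ∀ i, ((g : Diag K N) i : K) ^ (m i + k).toNat =
      (((g : Diag K N) i ^ m i : Kˣ) : K) * ((g : Diag K N) i : K) ^ k := by
    intro i
    have h3 : ((g : Diag K N) i) ^ (m i + k).toNat =
        (g : Diag K N) i ^ m i * (g : Diag K N) i ^ k := by
      rw [← zpow_natCast, Int.toNat_of_nonneg (hk i), zpow_add, zpow_natCast]
    have := congrArg (Units.val) h3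
    simpa using this
  simp only [h2]
  rw [Finset.prod_mul_distrib]
  congr 1
  rw [mon_apply]
  push_cast
  rfl

/-- monomials as characters of `G` -/
def res (G : Sub K N) (m : Fin N → ℤ) : X G :=
  ⟨(mon m).comp G.subtype, mon_regular G m, by
    have := mon_regular G (-m)
    convert this using 2 with g
    have : mon (-m) (g : Diag K N) = (mon m (g : Diag K N))⁻¹ := by
      simp [mon_apply]
    rw [this]
    rfl⟩

theorem res_apply (G : Sub K N) (m : Fin N → ℤ) (g : G) :
    (res G m).1 g = mon m (g : Diag K N) := rfl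

/-- all characters are monomials -/
theorem exists_mon (G : Sub K N) (χ : X G) :
    ∃ m : Fin N → ℤ, χ = res G m := by
  classical
  obtain ⟨χ, hχ⟩ := χ
  obtain ⟨⟨p, k, hp⟩, -⟩ : IsChar G χ := hχ
  let ψ : G →* K := (Units.coeHom K).comp (χ * (mon (fun _ => (k : ℤ))).comp G.subtype)
  have hψ : ∀ g : G, ψ g = MvPolynomial.eval (fun i => (g.1 i : K)) p := by
    intro g
    rw [← hp g]
    change ((χ g * mon (fun _ => (k : ℤ)) g.1 : Kˣ) : K) = _
    rw [mon_apply]
    simp [Finset.prod_pow]
  have hex : ∃ m ∈ p.support, monK G (toZ m) = ψ := by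
    by_contra hcon
    push Not at hcon
    let F : (G →* K) →₀ K := Finsupp.single ψ 1 -
      ∑ m ∈ p.support, Finsupp.single (monK G (toZ m)) (p.coeff m)
    have hF : F = 0 := by
      refine linearIndependent_iff.1 (linearIndependent_monoidHom G K) F ?_
      simp only [F]
      rw [map_sub, map_sum]
      funext g
      rw [Pi.sub_apply, Finset.sum_apply]
      simp only [Finsupp.linearCombination_single, Pi.smul_apply, smul_eq_mul, monK_apply,
        Pi.zero_apply, one_mul]
      rw [← eval_eq, hψ, sub_self]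
    have h1 := DFunLike.congr_fun hF ψ
    simp only [F] at h1
    rw [Finsupp.sub_apply, Finsupp.single_eq_same, Finsupp.finsetSum_apply,
      Finset.sum_eq_zero, sub_zero] at h1
    · exact one_ne_zero h1
    · intro m hm
      exact Finsupp.single_eq_of_ne (Ne.symm (hcon m hm))
  obtain ⟨m, -, hm⟩ := hex
  refine ⟨toZ m - fun _ => (k : ℤ), Subtype.ext (MonoidHom.ext fun g => ?_)⟩
  rw [res_apply, mon_sub]
  have h2 := DFunLike.congr_fun hm g
  rw [monK_apply] at h2
  have h3 : mon (toZ m) (g : Diag K N) = χ g * mon (fun _ => (k : ℤ)) g.1 := Units.ext h2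
  rw [h3, mul_assoc, mul_inv_cancel, mul_one]

theorem res_eq_prod (G : Sub K N) (m : Fin N → ℤ) :
    res G m = ∏ i, res G (Pi.single i 1) ^ m i := by
  classical
  refine Subtype.ext (MonoidHom.ext fun g => ?_)
  rw [res_apply, Subgroup.val_finsetProd, MonoidHom.finsetProd_apply, mon_apply]
  refine Finset.prod_congr rfl fun i _ => ?_
  have h1 : (res G (Pi.single i 1)).1 g = (g : Diag K N) i := by
    rw [res_apply, mon_apply, Finset.prod_eq_single i]
    · simp
    · intro j _ hj
      simp [hj]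
    · simp
  rw [Subgroup.coe_zpow]
  change _ = ((res G (Pi.single i 1)).1 g) ^ m i
  rw [h1]

theorem X_fg (G : Sub K N) :
    ∃ S : Finset (X G), Subgroup.closure (S : Set (X G)) = ⊤ := by
  classical
  refine ⟨Finset.univ.image fun i => res G (Pi.single i 1), ?_⟩
  rw [Subgroup.eq_top_iff']
  intro χ
  obtain ⟨m, rfl⟩ := exists_mon G χ
  rw [res_eq_prod]
  refine Subgroup.prod_mem _ fun i _ => Subgroup.zpow_mem _ (Subgroup.subset_closure ?_) _
  simp

theorem exists_gen (G : Sub K N) :
    ∃ S : Finset (X G), S.card = rk (X G) ∧ Subgroup.closure (S : Set (X G)) = ⊤ := by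
  obtain ⟨S, hS⟩ := X_fg G
  exact Nat.sInf_mem (s := {n | ∃ S : Finset (X G), S.card = n ∧
    Subgroup.closure (S : Set (X G)) = ⊤}) ⟨_, S, rfl, hS⟩

/-- evaluation of characters at a point -/
def ev (G : Sub K N) (g : G) : Additive (X G) →ₗ[ℤ] Additive Kˣ :=
  (MonoidHom.toAdditive ((MonoidHom.eval g).comp (X G).subtype)).toIntLinearMap

theorem ev_apply (G : Sub K N) (g : G) (χ : X G) :
    ev G g (Additive.ofMul χ) = Additive.ofMul (χ.1 g) := rfl

/-- the characters trivial on `H` -/
def NH (G H : Sub K N) : Submodule ℤ (Additive (X G)) :=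
  ⨅ h : {h : G // (h : Diag K N) ∈ H}, LinearMap.ker (ev G h.1)

theorem mem_NH (G H : Sub K N) (χ : X G) :
    Additive.ofMul χ ∈ NH G H ↔ ∀ h : G, (h : Diag K N) ∈ H → χ.1 h = 1 := by
  rw [NH, Submodule.mem_iInf]
  constructor
  · intro h1 h hh
    have := h1 ⟨h, hh⟩
    rw [LinearMap.mem_ker, ev_apply] at this
    exact this
  · rintro h1 ⟨h, hh⟩
    rw [LinearMap.mem_ker, ev_apply, h1 h hh]
    rfl

theorem exists_point (G : Sub K N) (hG : ZClosed (G : Set (Diag K N)))
    (f : Additive (X G) →ₗ[ℤ] Additive Kˣ) : ∃ x : G, ∀ m : Fin N → ℤ,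
      Additive.ofMul (mon m (x : Diag K N)) = f (Additive.ofMul (res G m)) := by
  let x : Fin N → Kˣ := fun i => (f (Additive.ofMul (res G (Pi.single i 1)))).toMul
  have hx : ∀ m : Fin N → ℤ, Additive.ofMul (mon m x) = f (Additive.ofMul (res G m)) := by
    intro m
    rw [res_eq_prod, ofMul_prod, map_sum, mon_apply, ofMul_prod]
    refine Finset.sum_congr rfl fun i _ => ?_
    rw [ofMul_zpow, ofMul_zpow, map_zsmul]
    rfl
  have hxG : x ∈ G := by
    refine mem_of_mon G hG x fun m hm => ?_
    have h1 : res G m = 1 := Subtype.ext (MonoidHom.ext fun g => by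
      rw [res_apply, hm _ g.2]; rfl)
    have h2 := hx m
    rw [h1, ofMul_one, map_zero] at h2
    exact h2
  exact ⟨⟨x, hxG⟩, hx⟩

theorem exists_root [IsAlgClosed K] (n : ℤ) (hn : n ≠ 0) (a : Additive Kˣ) :
    ∃ b : Additive Kˣ, n • b = a := by
  have h1 : ∃ b : Kˣ, b ^ n.natAbs = a.toMul := by
    obtain ⟨z, hz⟩ := IsAlgClosed.exists_pow_nat_eq (a.toMul : K) (Int.natAbs_pos.2 hn)
    have hz0 : z ≠ 0 := by
      rintro rfl
      rw [zero_pow (by simpa using hn)] at hz
      exact a.toMul.ne_zero hz.symm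
    exact ⟨Units.mk0 z hz0, Units.ext (by simpa using hz)⟩
  obtain ⟨b, hb⟩ := h1
  rcases Int.natAbs_eq n with h | h
  · refine ⟨Additive.ofMul b, ?_⟩
    rw [h, natCast_zsmul, ← ofMul_pow, hb]
    rfl
  · refine ⟨Additive.ofMul b⁻¹, ?_⟩
    rw [h, neg_smul, natCast_zsmul, ← ofMul_pow, inv_pow, hb]
    simp

/-- `K^×` is divisible -/
noncomputable def divK (K : Type*) [Field K] [IsAlgClosed K] : DivisibleBy (Additive Kˣ) ℤ where
  div a n := if h : n = 0 then 0 else (exists_root n h a).choose
  div_zero a := by simp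
  div_cancel {n} a hn := by
    rw [dif_neg hn]
    exact (exists_root n hn a).choose_spec

theorem helly [IsAlgClosed K] (G : Sub K N) (hG : ZClosed (G : Set (Diag K N))) :
    Helly G (1 + rk (X G)) := by
  classical
  let _ := divK K
  obtain ⟨S, hSc, hS⟩ := exists_gen G
  let S' : Finset (Additive (X G)) := S.map Additive.ofMul.toEmbedding
  have hS'c : S'.card = rk (X G) := by rw [Finset.card_map, hSc]
  have hS' : Submodule.span ℤ (S' : Set (Additive (X G))) = ⊤ := by
    rw [Submodule.eq_top_iff']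
    intro x
    have hx : x.toMul ∈ Subgroup.closure (S : Set (X G)) := by rw [hS]; trivial
    have : ∀ y : X G, y ∈ Subgroup.closure (S : Set (X G)) →
        Additive.ofMul y ∈ Submodule.span ℤ (S' : Set (Additive (X G))) := by
      intro y hy
      induction hy using Subgroup.closure_induction with
      | mem y hy =>
        refine Submodule.subset_span ?_
        simp only [S', Finset.coe_map, Equiv.coe_toEmbedding]
        exact ⟨y, hy, rfl⟩
      | one => exact Submodule.zero_mem _
      | mul a b _ _ ha hb => exact Submodule.add_mem _ ha hb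
      | inv a _ ha => exact Submodule.neg_mem _ ha
    exact this _ hx
  intro m C hC hemp
  by_contra hcon
  push Not at hcon
  choose g hgG H hHG hHc hCe using hC
  have hCG : ∀ i x, x ∈ C i → x ∈ G := by
    intro i x hx
    rw [hCe i] at hx
    obtain ⟨h, hh, rfl⟩ := hx
    exact G.mul_mem (hgG i) (hHG i hh)
  have hall : ∀ (k : ℕ) (s : Finset (Fin m)), s.card = k → (⋂ i ∈ s, C i).Nonempty := by
    intro k
    induction k using Nat.strong_induction_on with
    | _ k ih =>
      intro s hs
      by_cases hk : k ≤ 1 + rk (X G)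
      · exact hcon s (by omega)
      · push Not at hk
        obtain ⟨f, hf⟩ := exists_ext S' hS' s (by omega) (fun i => NH G (H i))
          (fun i => ev G ⟨g i, hgG i⟩) (by
            intro j hj
            have hcard := Finset.card_erase_of_mem hj
            obtain ⟨x, hx⟩ := ih (s.erase j).card (by omega) (s.erase j) rfl
            have hxC : ∀ i ∈ s, i ≠ j → x ∈ C i := fun i hi hij =>
              Set.mem_iInter₂.1 hx i (Finset.mem_erase.2 ⟨hij, hi⟩)
            obtain ⟨i0, hi0⟩ : (s.erase j).Nonempty := Finset.card_pos.1 (by omega)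
            have hxG : x ∈ G := hCG i0 x (Set.mem_iInter₂.1 hx i0 hi0)
            refine ⟨ev G ⟨x, hxG⟩, fun i hi hij χ hχ => ?_⟩
            have h1 := hxC i hi hij
            rw [hCe i] at h1
            obtain ⟨h, hh, hxh⟩ := h1
            have h2 := (mem_NH G (H i) χ.toMul).1 hχ ⟨h, hHG i hh⟩ hh
            have h3 : (⟨x, hxG⟩ : G) = ⟨g i, hgG i⟩ * ⟨h, hHG i hh⟩ := Subtype.ext hxh
            rw [h3]
            change Additive.ofMul (χ.toMul.1 _) = Additive.ofMul (χ.toMul.1 _)
            rw [map_mul, h2, mul_one])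
        obtain ⟨x, hx⟩ := exists_point G hG f
        refine ⟨x, Set.mem_iInter₂.2 fun i hi => ?_⟩
        rw [hCe i]
        refine ⟨(g i)⁻¹ * x, ?_, by rw [mul_inv_cancel_left]⟩
        refine mem_of_mon (H i) (hHc i) _ fun μ hμ => ?_
        have h1 : Additive.ofMul (res G μ) ∈ NH G (H i) :=
          (mem_NH G (H i) _).2 fun h hh => hμ _ hh
        have h2 := hf i hi _ h1
        rw [← hx μ, ev_apply, res_apply] at h2
        have h3 : mon μ (x : Diag K N) = mon μ (g i) := h2
        rw [map_mul, h3, map_inv, inv_mul_cancel]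
  obtain ⟨x, hx⟩ := hall _ Finset.univ rfl
  have : x ∈ ⋂ i, C i := by simpa using hx
  rw [hemp] at this
  exact this

end group

/-- For every algebraically closed field `K` and every diagonalizable group `G` over `K`, that is,
every Zariski closed subgroup `G` of a diagonal group `(K^×)^N`: the character group `X(G)` is
generated by some finite set, the Helly property holds with the number `1 + rk(X(G))`, and
`κ(G) ≤ 1 + rk(X(G))`. -/
theorem result (K : Type*) [Field K] [IsAlgClosed K] (N : ℕ) (G : Sub K N)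
    (hG : ZClosed (G : Set (Diag K N))) :
    (∃ S : Finset (X G), S.card = rk (X G) ∧ Subgroup.closure (S : Set (X G)) = ⊤) ∧
      Helly G (1 + rk (X G)) ∧ kappa G ≤ 1 + rk (X G) :=
  ⟨exists_gen G, helly G hG, Nat.sInf_le ⟨by omega, helly G hG⟩⟩

end Pool.Agent.Results.MP_baf67b_al.HellyDimension
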